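import Pool.Agent.H26.RL.Ineq4
import Pool.Agent.H96.T3.Ineq17

/-!
# Project RL (MP_a3214d): an explicit exponent for every `n ≥ 7`
-/

set_option autoImplicit false

open Pool.Agent.H92.SQ2 (gg WW)
open Pool.Agent.H96.T3 (mu3 ee3 ineq17)
open Pool.Agent.H26.RL (mu4 ee4 ee3_le)

namespace Pool.Agent.H98.R4

private theorem r4_gg6 : gg 7 6 = 6 ∧ gg 8 6 = 8 ∧ gg 9 6 = 10 ∧ gg 10 6 = 12 ∧ gg 11 6 = 14 ∧
    gg 12 6 = 16 ∧ gg 13 6 = 18 ∧ gg 14 6 = 21 ∧ gg 15 6 = 24 ∧ gg 16 6 = 27 := by decide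

theorem ineq101 (n : ℕ) (hn : 7 ≤ n) : ∃ r : ℕ, 1 ≤ r ∧ r + 2 ≤ n ∧ 0 < mu4 n r ∧
    1 / 2 + 101 / (100 * (n : ℝ)) < ee4 n r := by
  rcases Nat.lt_or_ge n 17 with h17 | h17
  · obtain ⟨g7, g8, g9, g10, g11, g12, g13, g14, g15, g16⟩ := r4_gg6
    have h : n = 7 ∨ n = 8 ∨ n = 9 ∨ n = 10 ∨ n = 11 ∨ n = 12 ∨ n = 13 ∨ n = 14 ∨ n = 15 ∨
        n = 16 := by omega
    refine ⟨5, by norm_num, by omega, ?_, ?_⟩
    · rcases h with rfl | rfl | rfl | rfl | rfl | rfl | rfl | rfl | rfl | rfl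
      · rw [mu4, WW, g7]; norm_num
      · rw [mu4, WW, g8]; norm_num
      · rw [mu4, WW, g9]; norm_num
      · rw [mu4, WW, g10]; norm_num
      · rw [mu4, WW, g11]; norm_num
      · rw [mu4, WW, g12]; norm_num
      · rw [mu4, WW, g13]; norm_num
      · rw [mu4, WW, g14]; norm_num
      · rw [mu4, WW, g15]; norm_num
      · rw [mu4, WW, g16]; norm_num
    · rcases h with rfl | rfl | rfl | rfl | rfl | rfl | rfl | rfl | rfl | rfl
      · rw [ee4, mu4, WW, g7]; norm_num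
      · rw [ee4, mu4, WW, g8]; norm_num
      · rw [ee4, mu4, WW, g9]; norm_num
      · rw [ee4, mu4, WW, g10]; norm_num
      · rw [ee4, mu4, WW, g11]; norm_num
      · rw [ee4, mu4, WW, g12]; norm_num
      · rw [ee4, mu4, WW, g13]; norm_num
      · rw [ee4, mu4, WW, g14]; norm_num
      · rw [ee4, mu4, WW, g15]; norm_num
      · rw [ee4, mu4, WW, g16]; norm_num
  · obtain ⟨r, hr, hrn, hμ, hθ⟩ := ineq17 n h17
    obtain ⟨hμ4, hle⟩ := ee3_le n r (by omega) hrn hμ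
    refine ⟨r, hr, hrn, hμ4, lt_trans ?_ (lt_of_lt_of_le hθ hle)⟩
    have hn0 : (0 : ℝ) < n := by
      have : 0 < n := by omega
      exact_mod_cast this
    have : (101 : ℝ) / (100 * n) < 109 / (100 * n) :=
      div_lt_div_of_pos_right (by norm_num) (by positivity)
    linarith

end Pool.Agent.H98.R4
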