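import Pool.Agent.H98.TQ.DefsL

/-!
# Project RL (MP_a3214d): the exponents of the limit superior exceed `1/2 + 3/(2n)`
-/

set_option autoImplicit false

namespace Pool.Agent.H98.R4

open Pool.Agent.H92.SQ2 (gg WW)

private theorem r4_sum (n : ℕ) : ∑ i ∈ Finset.range n, (i + 1) / 2 = n * n / 4 := by
  induction n with
  | zero => rfl
  | succ n ih =>
    rw [Finset.sum_range_succ, ih]
    rcases Nat.even_or_odd' n with ⟨m, rfl | rfl⟩
    · have e1 : 2 * m * (2 * m) = 4 * (m * m) := by ring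
      have e2 : (2 * m + 1) * (2 * m + 1) = 4 * (m * m + m) + 1 := by ring
      rw [e1, e2]
      omega
    · have e1 : (2 * m + 1) * (2 * m + 1) = 4 * (m * m + m) + 1 := by ring
      have e2 : (2 * m + 1 + 1) * (2 * m + 1 + 1) = 4 * (m * m + 2 * m + 1) := by ring
      rw [e1, e2]
      omega

private theorem r4_gg2 (n : ℕ) : gg n 2 = n * n / 4 := r4_sum n

private theorem r4_ggs (n s : ℕ) (hs : 1 ≤ s) :
    2 * s * gg (n + 1) s ≤ n * (n + 2 * s - 1) := by
  induction n with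
  | zero =>
    have : gg 1 s = 0 := by
      unfold gg
      rw [Finset.sum_range_one]
      exact Nat.div_eq_of_lt (by omega)
    simp [this]
  | succ n ih =>
    have h1 : gg (n + 1 + 1) s = gg (n + 1) s + (n + 1 + s - 1) / s := by
      unfold gg
      rw [Finset.sum_range_succ]
    have h2 : s * ((n + 1 + s - 1) / s) ≤ n + 1 + s - 1 := Nat.mul_div_le _ _
    rw [h1]
    obtain ⟨c, rfl⟩ : ∃ c, s = c + 1 := ⟨s - 1, by omega⟩
    have h3 : n + 2 * (c + 1) - 1 = n + 2 * c + 1 := by omega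
    have h4 : n + 1 + 2 * (c + 1) - 1 = n + 2 * c + 2 := by omega
    have h5 : n + 1 + (c + 1) - 1 = n + c + 1 := by omega
    rw [h3] at ih
    rw [h5] at h2
    rw [h4, h5]
    nlinarith

/-- the numerator for `s` times `3 (W - s)` -/
private theorem r4_num {W s : ℝ} (h : 0 < W - s) :
    W - W / 3 * W / (W - s) = W * (2 * W - 3 * s) / (3 * (W - s)) := by
  field_simp
  ring

private theorem r4_dec : gg 5 2 = 6 ∧ gg 5 3 = 5 ∧ gg 5 4 = 4 ∧ gg 6 2 = 9 ∧ gg 6 3 = 7 ∧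
    gg 6 4 = 6 ∧ gg 6 5 = 5 ∧ gg 7 2 = 12 := by decide

private theorem r4_one {n : ℕ} (hn : 5 ≤ n) : ((n : ℝ) + 3) / (2 * n) *
    ((n : ℝ) * (n - 1) - 2 * (WW n / 3)) < WW n - (WW n / 3) * WW n / (WW n - 1) := by
  have hx : (5 : ℝ) ≤ n := by exact_mod_cast hn
  have hW : WW n = ((n : ℝ) - 1) * (n + 2) / 2 := rfl
  generalize (n : ℝ) = x at *
  have h1 : 0 < WW n - 1 := by rw [hW]; nlinarith
  rw [r4_num h1, hW]
  have h2 : 0 < (x - 1) * (x + 2) / 2 - 1 := by rw [← hW]; exact h1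
  rw [div_mul_eq_mul_div, div_lt_div_iff₀ (by positivity) (by positivity)]
  have h3 : (x - 1) * (x + 2) / 2 * (2 * ((x - 1) * (x + 2) / 2) - 3 * 1) * (2 * x) -
      (x + 3) * (x * (x - 1) - 2 * ((x - 1) * (x + 2) / 2 / 3)) *
        (3 * ((x - 1) * (x + 2) / 2 - 1)) = (x - 1) * (2 * x ^ 2 + x - 12) := by ring
  have h4 : 0 < (x - 1) * (2 * x ^ 2 + x - 12) := mul_pos (by linarith) (by nlinarith)
  linarith

private theorem r4_two {n : ℕ} (hn : 8 ≤ n) : ((n : ℝ) + 3) / (2 * n) *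
    (2 * ((n : ℝ) ^ 2 / 4)) < WW n - (WW n / 3) * WW n / (WW n - 2) := by
  have hx : (8 : ℝ) ≤ n := by exact_mod_cast hn
  have hW : WW n = ((n : ℝ) - 1) * (n + 2) / 2 := rfl
  generalize (n : ℝ) = x at *
  have h1 : 0 < WW n - 2 := by rw [hW]; nlinarith
  rw [r4_num h1, hW]
  have h2 : 0 < (x - 1) * (x + 2) / 2 - 2 := by rw [← hW]; exact h1
  rw [div_mul_eq_mul_div, div_lt_div_iff₀ (by positivity) (by positivity)]
  have h3 : (x - 1) * (x + 2) / 2 * (2 * ((x - 1) * (x + 2) / 2) - 3 * 2) * (2 * x) -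
      (x + 3) * (2 * (x ^ 2 / 4)) * (3 * ((x - 1) * (x + 2) / 2 - 2)) =
        x / 4 * (x ^ 4 - 4 * x ^ 3 - 27 * x ^ 2 + 14 * x + 64) := by ring
  have h4 : 0 < x ^ 4 - 4 * x ^ 3 - 27 * x ^ 2 + 14 * x + 64 := by
    obtain ⟨y, hy, rfl⟩ : ∃ y : ℝ, 0 ≤ y ∧ x = y + 8 := ⟨x - 8, by linarith, by ring⟩
    have : (y + 8) ^ 4 - 4 * (y + 8) ^ 3 - 27 * (y + 8) ^ 2 + 14 * (y + 8) + 64 =
        y ^ 4 + 28 * y ^ 3 + 261 * y ^ 2 + 862 * y + 496 := by ring
    rw [this]
    positivity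
  have h5 : 0 < x / 4 * (x ^ 4 - 4 * x ^ 3 - 27 * x ^ 2 + 14 * x + 64) :=
    mul_pos (by linarith) h4
  linarith

private theorem r4_three {n s : ℕ} (hn : 7 ≤ n) (hs : 3 ≤ s) (hsn : s ≤ n - 1) :
    ((n : ℝ) + 3) / (2 * n) * (((n : ℝ) - 1) * (n + 2 * s - 2) / s) <
      WW n - (WW n / 3) * WW n / (WW n - s) := by
  have hx : (7 : ℝ) ≤ n := by exact_mod_cast hn
  have ht : (3 : ℝ) ≤ s := by exact_mod_cast hs
  have htx : (s : ℝ) ≤ n - 1 := by
    have h : s + 1 ≤ n := by omega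
    have h' : (s : ℝ) + 1 ≤ n := by exact_mod_cast h
    linarith
  have hW : WW n = ((n : ℝ) - 1) * (n + 2) / 2 := rfl
  generalize (n : ℝ) = x at *
  generalize (s : ℝ) = t at *
  have h1 : 0 < WW n - t := by rw [hW]; nlinarith
  rw [r4_num h1, hW]
  have h2 : 0 < (x - 1) * (x + 2) / 2 - t := by rw [← hW]; exact h1
  rw [div_mul_div_comm, div_lt_div_iff₀ (by positivity) (by positivity)]
  obtain ⟨P, hP⟩ : ∃ P : ℝ → ℝ, P = fun t => 2 * x * t * (x + 2) * (x ^ 2 + x - 2 - 3 * t) -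
      3 * (x + 3) * (x + 2 * t - 2) * (x ^ 2 + x - 2 - 2 * t) := ⟨_, rfl⟩
  have h3 : (x - 1) * (x + 2) / 2 * (2 * ((x - 1) * (x + 2) / 2) - 3 * t) * (2 * x * t) -
      (x + 3) * ((x - 1) * (x + 2 * t - 2)) * (3 * ((x - 1) * (x + 2) / 2 - t)) =
        (x - 1) / 2 * P t := by
    rw [hP]; ring
  -- values at the end points
  have hP3 : 0 < P 3 := by
    have : P 3 = 3 * x ^ 4 - 6 * x ^ 3 - 87 * x ^ 2 + 288 := by rw [hP]; ring
    rw [this]
    obtain ⟨y, hy, rfl⟩ : ∃ y : ℝ, 0 ≤ y ∧ x = y + 7 := ⟨x - 7, by linarith, by ring⟩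
    have : 3 * (y + 7) ^ 4 - 6 * (y + 7) ^ 3 - 87 * (y + 7) ^ 2 + 288 =
        3 * y ^ 4 + 78 * y ^ 3 + 669 * y ^ 2 + 2016 * y + 1170 := by ring
    rw [this]
    positivity
  have hPn : 0 < P (x - 1) := by
    have : P (x - 1) = x * (x - 1) * (2 * (x + 2) * (x - 1) ^ 2 - 3 * (x + 3) * (3 * x - 4)) := by
      rw [hP]; ring
    rw [this]
    have h4 : 0 < 2 * (x + 2) * (x - 1) ^ 2 - 3 * (x + 3) * (3 * x - 4) := by
      obtain ⟨y, hy, rfl⟩ : ∃ y : ℝ, 0 ≤ y ∧ x = y + 7 := ⟨x - 7, by linarith, by ring⟩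
      have : 2 * (y + 7 + 2) * (y + 7 - 1) ^ 2 - 3 * (y + 7 + 3) * (3 * (y + 7) - 4) =
          2 * y ^ 3 + 33 * y ^ 2 + 147 * y + 138 := by ring
      rw [this]
      positivity
    exact mul_pos (mul_pos (by linarith) (by linarith)) h4
  -- concavity
  have hconc : (x - 4) * P t = (x - 1 - t) * P 3 + (t - 3) * P (x - 1) +
      (x - 4) * ((6 * x ^ 2 - 36) * ((t - 3) * (x - 1 - t))) := by
    rw [hP]; ring
  have h6 : 0 < (x - 4) * P t := by
    rw [hconc]
    have ha : 0 ≤ x - 1 - t := by linarith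
    have hb : 0 ≤ t - 3 := by linarith
    have hc : 0 < x - 4 := by linarith
    have hd : 0 < 6 * x ^ 2 - 36 := by nlinarith
    have k1 : 0 ≤ (x - 1 - t) * P 3 := mul_nonneg ha hP3.le
    have k2 : 0 ≤ (t - 3) * P (x - 1) := mul_nonneg hb hPn.le
    have k3 : 0 ≤ (x - 4) * ((6 * x ^ 2 - 36) * ((t - 3) * (x - 1 - t))) :=
      mul_nonneg hc.le (mul_nonneg hd.le (mul_nonneg hb ha))
    rcases eq_or_lt_of_le ha with h0 | h0
    · have : 0 < (t - 3) * P (x - 1) := mul_pos (by linarith) hPn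
      linarith
    · have : 0 < (x - 1 - t) * P 3 := mul_pos h0 hP3
      linarith
  have h7 : 0 < P t := by
    by_contra hcon
    have : (x - 4) * P t ≤ 0 := mul_nonpos_of_nonneg_of_nonpos (by linarith) (by linarith)
    linarith
  have h8 : 0 < (x - 1) / 2 * P t := mul_pos (by linarith) h7
  linarith

theorem ineqM4_raw (n s : ℕ) (hn : 5 ≤ n) (hs : 1 ≤ s) (hsn : s ≤ n - 1) :
    1 / 2 + 3 / (2 * (n : ℝ)) < (WW n - (WW n / 3) * WW n / (WW n - s)) /
      min ((n : ℝ) * (n - 1) - 2 * (WW n / 3)) (2 * (gg n s : ℝ)) := by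
  have hx : (5 : ℝ) ≤ n := by exact_mod_cast hn
  have hn0 : (0 : ℝ) < n := by linarith
  have hW : WW n = ((n : ℝ) - 1) * (n + 2) / 2 := rfl
  have hgg0 : 0 < (gg n s : ℝ) := by
    have : 0 < gg n s := by
      unfold gg
      apply Finset.sum_pos'
      · intro i _
        exact Nat.zero_le _
      · refine ⟨1, Finset.mem_range.mpr (by omega), Nat.div_pos (by omega) (by omega)⟩
    exact_mod_cast this
  have hden : 0 < (n : ℝ) * (n - 1) - 2 * (WW n / 3) := by rw [hW]; nlinarith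
  have hmin : 0 < min ((n : ℝ) * (n - 1) - 2 * (WW n / 3)) (2 * (gg n s : ℝ)) :=
    lt_min hden (by positivity)
  have e1 : 1 / 2 + 3 / (2 * (n : ℝ)) = ((n : ℝ) + 3) / (2 * n) := by
    field_simp
  have hrho : 0 ≤ ((n : ℝ) + 3) / (2 * n) := by positivity
  rw [e1, lt_div_iff₀ hmin]
  have hl : ((n : ℝ) + 3) / (2 * n) * min ((n : ℝ) * (n - 1) - 2 * (WW n / 3))
      (2 * (gg n s : ℝ)) ≤ ((n : ℝ) + 3) / (2 * n) * ((n : ℝ) * (n - 1) - 2 * (WW n / 3)) :=
    mul_le_mul_of_nonneg_left (min_le_left _ _) hrho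
  have hr : ((n : ℝ) + 3) / (2 * n) * min ((n : ℝ) * (n - 1) - 2 * (WW n / 3))
      (2 * (gg n s : ℝ)) ≤ ((n : ℝ) + 3) / (2 * n) * (2 * (gg n s : ℝ)) :=
    mul_le_mul_of_nonneg_left (min_le_right _ _) hrho
  obtain ⟨g52, g53, g54, g62, g63, g64, g65, g72⟩ := r4_dec
  rcases Nat.lt_or_ge s 2 with h | h
  · have : s = 1 := by omega
    subst this
    refine lt_of_le_of_lt hl ?_
    have := r4_one hn
    rwa [Nat.cast_one]
  rcases Nat.lt_or_ge s 3 with h' | h'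
  · have : s = 2 := by omega
    subst this
    rcases Nat.lt_or_ge n 8 with h8 | h8
    · have : n = 5 ∨ n = 6 ∨ n = 7 := by omega
      rcases this with rfl | rfl | rfl
      · refine lt_of_le_of_lt hl ?_
        rw [hW]; norm_num
      · refine lt_of_le_of_lt hl ?_
        rw [hW]; norm_num
      · refine lt_of_le_of_lt hr ?_
        rw [hW, g72]; norm_num
    · refine lt_of_le_of_lt hr ?_
      have h2 : (((2 : ℕ) : ℝ)) = 2 := by norm_num
      rw [h2]
      refine lt_of_le_of_lt ?_ (r4_two h8)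
      refine mul_le_mul_of_nonneg_left ?_ hrho
      have h9 : 4 * (n * n / 4) ≤ n * n := by omega
      have h10 : 4 * ((n * n / 4 : ℕ) : ℝ) ≤ (n : ℝ) * n := by exact_mod_cast h9
      rw [r4_gg2]
      nlinarith
  · rcases Nat.lt_or_ge n 7 with h7 | h7
    · refine lt_of_le_of_lt hr ?_
      have : n = 5 ∨ n = 6 := by omega
      rcases this with rfl | rfl
      · have : s = 3 ∨ s = 4 := by omega
        rcases this with rfl | rfl
        · rw [hW, g53]; norm_num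
        · rw [hW, g54]; norm_num
      · have : s = 3 ∨ s = 4 ∨ s = 5 := by omega
        rcases this with rfl | rfl | rfl
        · rw [hW, g63]; norm_num
        · rw [hW, g64]; norm_num
        · rw [hW, g65]; norm_num
    · refine lt_of_le_of_lt hr ?_
      refine lt_of_le_of_lt ?_ (r4_three h7 h' hsn)
      refine mul_le_mul_of_nonneg_left ?_ hrho
      obtain ⟨m, rfl⟩ : ∃ m, n = m + 1 := ⟨n - 1, by omega⟩
      have h9 := r4_ggs m s hs
      have h10 : 2 * (s : ℝ) * (gg (m + 1) s : ℝ) ≤ m * (m + 2 * s - 1) := by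
        have h11 : ((2 * s * gg (m + 1) s : ℕ) : ℝ) ≤ ((m * (m + 2 * s - 1) : ℕ) : ℝ) := by
          exact_mod_cast h9
        rw [Nat.cast_mul m, Nat.cast_sub (by omega)] at h11
        push_cast at h11
        linarith
      have hs0 : (0 : ℝ) < s := by
        have : 0 < s := by omega
        exact_mod_cast this
      rw [le_div_iff₀ hs0]
      push_cast
      nlinarith

end Pool.Agent.H98.R4
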