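import Pool.Agent.H26.RL.FieldC4
import Pool.Agent.H26.RL.FieldL4
import Pool.Agent.H26.RL.Params4
import Pool.Agent.H26.RL.ParamsL4
import Pool.Agent.H26.RL.Ineq4
import Pool.Agent.H96.T3.Ineq17
import Pool.Agent.H98.TQ.LimSup
import Pool.Agent.H98.TQ.NSym
import Pool.Agent.H98.R4.IneqM4
import Pool.Agent.H98.R4.Ineq101
import Pool.Agent.H92.SQ2.Rpow

/-!
# Project RL (MP_a3214d): main theorem

Lower bounds for the number of extensions of degree `n` with group `S_n` of a number field `k`.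
-/

set_option autoImplicit false

open Polynomial IsDedekindDomain NumberField Pool.Agent.H35.AN
open Pool.Agent.H92.SQ2 (gg WW final_rpow2)
open Pool.Agent.H96.T3 (mu3 ee3 ineq17)
open Pool.Agent.H98.TQ (NSym nsym_eq count_mono final_limsup)
open Pool.Agent.H26.RL

namespace Pool.Agent.H98.R4

/-- all large `B`: exponents less than `ee4 n r` -/
theorem main_inf (k : Type) [Field k] [NumberField k] (n r : ℕ) (hn : 5 ≤ n) (hr : 1 ≤ r)
    (hrn : r + 2 ≤ n) (hμ : 0 < mu4 n r) (θ : ℝ) (hθ : θ < ee4 n r) :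
    ∀ᶠ B : ℝ in Filter.atTop, B ^ θ ≤ (NSym k n B : ℝ) := by
  obtain ⟨b, g, tA, tB, w, hcond, hv, hw, hw2, hpos, hlt⟩ :=
    params4 (Module.finrank ℚ k) n r Module.finrank_pos hn hr hrn hμ θ hθ
  obtain ⟨c, C, hc, hC, h0, h⟩ := field_count4 k n r b g tA tB w hr hrn hcond hv hw hw2
  have h1 := final_rpow2 (malleCount k n ⊤) (count_mono k n) _ _ hpos θ c C hlt hc hC h0 h
  filter_upwards [h1] with B hB
  rw [nsym_eq]
  exact hB

/-- arbitrarily large `B`: exponents less than every `eL4 n s` -/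
theorem main_sup (k : Type) [Field k] [NumberField k] (n : ℕ) (hn : 5 ≤ n) (θ : ℝ)
    (hθ : ∀ s : ℕ, 1 ≤ s → s ≤ n - 1 → θ < eL4 n s) :
    ∃ᶠ B : ℝ in Filter.atTop, B ^ θ ≤ (NSym k n B : ℝ) := by
  obtain ⟨b, g, tA, w, hcond, hs⟩ :=
    params_sup4 (Module.finrank ℚ k) n Module.finrank_pos hn θ hθ
  obtain ⟨c, C, hc, hC, h0, h⟩ := field_count_sup4 k n b g tA w hcond
    fun s h1 h2 => ⟨(hs s h1 h2).1, (hs s h1 h2).2.1⟩
  have h1 : ∃ᶠ B : ℝ in Filter.atTop, B ^ θ ≤ (malleCount k n ⊤ B : ℝ) := by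
    refine final_limsup (malleCount k n ⊤) (Finset.Icc 1 (n - 1))
      (fun s => Module.finrank ℚ k * (2 * b * (n * (n + 1) / 2 - 1)) -
        ((n - 1) ^ 2 * g * tA + 3 * tA) - Module.finrank ℚ k * ((2 * b - w s) * s))
      (fun s => min (Module.finrank ℚ k * (2 * b * n * (n - 1)) - 2 * ((n - 1) ^ 2 * g * tA))
        (Module.finrank ℚ k * (2 * (2 * b) * gg n s))) θ c C hc hC ?_ ?_ h0 ?_
    · intro s h1
      rw [Finset.mem_Icc] at h1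
      exact (hs s h1.1 h1.2).2.2.1
    · intro s h1
      rw [Finset.mem_Icc] at h1
      exact (hs s h1.1 h1.2).2.2.2
    · intro x hx
      obtain ⟨s, h1, h2, h3⟩ := h x hx
      exact ⟨s, Finset.mem_Icc.mpr ⟨h1, h2⟩, h3⟩
  refine h1.mono fun B hB => ?_
  rw [nsym_eq]
  exact hB

theorem result_aux4 :
    (∀ n : ℕ, 7 ≤ n → ∀ (k : Type) [Field k] [NumberField k],
      ∀ᶠ B : ℝ in Filter.atTop, B ^ (1 / 2 + 101 / (100 * (n : ℝ))) ≤ (NSym k n B : ℝ)) ∧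
    (∀ n : ℕ, 17 ≤ n → ∀ (k : Type) [Field k] [NumberField k],
      ∀ᶠ B : ℝ in Filter.atTop, B ^ (1 / 2 + 109 / (100 * (n : ℝ))) ≤ (NSym k n B : ℝ)) ∧
    (∀ κ : ℝ, κ < 3 / 2 → ∃ n0 : ℕ, ∀ n : ℕ, n0 ≤ n → ∀ (k : Type) [Field k] [NumberField k],
      ∀ᶠ B : ℝ in Filter.atTop, B ^ (1 / 2 + κ / (n : ℝ)) ≤ (NSym k n B : ℝ)) ∧
    (∀ n : ℕ, 6 ≤ n → ∀ (k : Type) [Field k] [NumberField k],
      ∃ᶠ B : ℝ in Filter.atTop, B ^ (1 / 2 + 3 / (2 * (n : ℝ))) ≤ (NSym k n B : ℝ)) := by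
  refine ⟨fun n hn k _ _ => ?_, fun n hn k _ _ => ?_, fun κ hκ => ?_, fun n hn k _ _ => ?_⟩
  · obtain ⟨r, hr, hrn, hμ, hθ⟩ := ineq101 n hn
    exact main_inf k n r (by omega) hr hrn hμ _ hθ
  · obtain ⟨r, hr, hrn, hμ, hθ⟩ := ineq17 n hn
    obtain ⟨hμ4, hle⟩ := ee3_le n r (by omega) hrn hμ
    exact main_inf k n r (by omega) hr hrn hμ4 _ (lt_of_lt_of_le hθ hle)
  · obtain ⟨n0, h0⟩ := ineq_as4 κ hκ
    refine ⟨max n0 5, fun n hn k _ _ => ?_⟩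
    obtain ⟨r, hr, hrn, hμ, hθ⟩ := h0 n (le_trans (le_max_left _ _) hn)
    exact main_inf k n r (le_trans (le_max_right _ _) hn) hr hrn hμ _ hθ
  · exact main_sup k n (by omega) (1 / 2 + 3 / (2 * (n : ℝ)))
      fun s h1 h2 => ineqM4_raw n s (by omega) h1 h2

end Pool.Agent.H98.R4
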